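import Mathlib

namespace Pool.Agent.P.MP_af8618_al

/-- The relator `t a t⁻¹ a^(-m)`; the letter `false` is `a`, the letter `true` is `t`. -/
def relator (m : ℕ) : FreeGroup Bool :=
  FreeGroup.of true * FreeGroup.of false * (FreeGroup.of true)⁻¹ * (FreeGroup.of false ^ m)⁻¹

/-- The Baumslag-Solitar group `BS(1,m) = ⟨a, t | t a t⁻¹ = a^m⟩`. -/
abbrev BS (m : ℕ) : Type := PresentedGroup ({relator m} : Set (FreeGroup Bool))

/-- The generator `a`. -/
def genA (m : ℕ) : BS m := PresentedGroup.of false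

/-- The generator `t`. -/
def genT (m : ℕ) : BS m := PresentedGroup.of true

/-- The generating set `S = {a, a⁻¹, t, t⁻¹}`. -/
def gens (m : ℕ) : Set (BS m) := {genA m, (genA m)⁻¹, genT m, (genT m)⁻¹}

/-- The word length `|g|`: the least length of a word in `S` with product `g`. -/
noncomputable def wordLength (m : ℕ) (g : BS m) : ℕ :=
  sInf {n | ∃ l : List (BS m), l.length = n ∧ (∀ s ∈ l, s ∈ gens m) ∧ l.prod = g}

/-- A dead-end: no neighbour `g s` has length `|g| + 1`. -/
def IsDeadEnd (m : ℕ) (g : BS m) : Prop :=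
  ∀ s ∈ gens m, wordLength m (g * s) ≠ wordLength m g + 1

/-- The ball `B(ρ) = {g : |g| ≤ ρ}` (empty for `ρ < 0`). -/
def ball (m : ℕ) (ρ : ℤ) : Set (BS m) := {g | (wordLength m g : ℤ) ≤ ρ}

/-- `g` lies in an infinite connected component of the subgraph of the Cayley graph
(edges `h ~ h s`, `s ∈ S`) induced on `U`. -/
def InInfiniteComponent (m : ℕ) (U : Set (BS m)) (g : BS m) : Prop :=
  ∃ hg : g ∈ U,
    (((SimpleGraph.mulCayley (gens m)).induce U).connectedComponentMk ⟨g, hg⟩).supp.Infinite

/-- The retreat depth: the least `d ≥ 0` such that `g` lies in an infinite connected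
component of the complement of `B(|g| - d - 1)`. -/
noncomputable def retreatDepth (m : ℕ) (g : BS m) : ℕ :=
  sInf {d : ℕ | InInfiniteComponent m (ball m ((wordLength m g : ℤ) - d - 1))ᶜ g}

end Pool.Agent.P.MP_af8618_al
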