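import Mathlib

namespace Pool.Agent.P.MP_af8618_al

/-- `x = ∑_{i ≤ B} f i * m ^ i` with `∑ |f i| ≤ N`. -/
def Rep (m : ℤ) : ℕ → ℤ → ℤ → Prop
  | 0, x, N => |x| ≤ N
  | B + 1, x, N => ∃ d y M : ℤ, x = d + m * y ∧ |d| + M ≤ N ∧ Rep m B y M

variable {m : ℤ}

theorem Rep.nonneg : ∀ {B : ℕ} {x N : ℤ}, Rep m B x N → 0 ≤ N
  | 0, _, _, h => (abs_nonneg _).trans h
  | _ + 1, _, _, ⟨d, _, _, _, h2, h3⟩ => by
    have := h3.nonneg
    have := abs_nonneg d
    omega

theorem Rep.mono_cost : ∀ {B : ℕ} {x N N' : ℤ}, Rep m B x N → N ≤ N' → Rep m B x N'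
  | 0, _, _, _, h, h' => le_trans h h'
  | _ + 1, _, _, _, ⟨d, y, M, h1, h2, h3⟩, h' => ⟨d, y, M, h1, h2.trans h', h3⟩

theorem rep_abs : ∀ (B : ℕ) (x : ℤ), Rep m B x |x|
  | 0, _ => le_refl _
  | B + 1, x => ⟨x, 0, |0|, by simp, by simp, rep_abs B 0⟩

theorem Rep.succ : ∀ {B : ℕ} {x N : ℤ}, Rep m B x N → Rep m (B + 1) x N
  | 0, x, _, h => (rep_abs 1 x).mono_cost h
  | _ + 1, _, _, ⟨d, y, M, h1, h2, h3⟩ => ⟨d, y, M, h1, h2, h3.succ⟩

theorem Rep.mono {B B' : ℕ} {x N : ℤ} (h : Rep m B x N) (hB : B ≤ B') : Rep m B' x N := by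
  induction hB with
  | refl => exact h
  | step _ ih => exact ih.succ

theorem Rep.shift {B : ℕ} {x N : ℤ} (h : Rep m B x N) : Rep m (B + 1) (m * x) N :=
  ⟨0, x, N, by simp, by simp, h⟩

theorem Rep.add_pow : ∀ {B i : ℕ} {x N : ℤ} (c : ℤ), i ≤ B → Rep m B x N →
    Rep m B (x + c * m ^ i) (N + |c|)
  | 0, i, x, N, c, hi, h => by
    obtain rfl : i = 0 := by omega
    have h' : |x| ≤ N := h
    have := abs_add_le x c
    show |x + c * m ^ 0| ≤ N + |c|
    simp only [pow_zero, mul_one]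
    omega
  | B + 1, 0, x, N, c, _, ⟨d, y, M, h1, h2, h3⟩ => by
    have := abs_add_le d c
    exact ⟨d + c, y, M, by rw [h1]; ring, by omega, h3⟩
  | B + 1, i + 1, x, N, c, hi, ⟨d, y, M, h1, h2, h3⟩ =>
    ⟨d, y + c * m ^ i, M + |c|, by rw [h1]; ring, by omega, h3.add_pow c (by omega)⟩

theorem Rep.add_const {B : ℕ} {x N : ℤ} (c : ℤ) (h : Rep m B x N) :
    Rep m B (x + c) (N + |c|) := by
  simpa using h.add_pow (i := 0) c (Nat.zero_le _)

theorem Rep.neg : ∀ {B : ℕ} {x N : ℤ}, Rep m B x N → Rep m B (-x) N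
  | 0, x, N, h => by
    have h' : |x| ≤ N := h
    show |-x| ≤ N
    rwa [abs_neg]
  | _ + 1, _, _, ⟨d, y, M, h1, h2, h3⟩ =>
    ⟨-d, -y, M, by rw [h1]; ring, by rwa [abs_neg], h3.neg⟩

/-- Two complementary digit expansions. -/
theorem rep_pair (hm : 2 ≤ m) : ∀ (l : ℕ) (s : ℤ), 0 ≤ s → s < m ^ l →
    ∃ N₁ N₂ : ℤ, N₁ + N₂ = (m - 1) * l ∧ Rep m l s N₁ ∧ Rep m l (m ^ l - 1 - s) N₂
  | 0, s, h0, h1 => by
    obtain rfl : s = 0 := by simp at h1; omega
    exact ⟨0, 0, by simp, by simp [Rep], by simp [Rep]⟩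
  | l + 1, s, h0, h1 => by
    have hm0 : 0 < m := by omega
    have hq0 : 0 ≤ s / m := Int.ediv_nonneg h0 hm0.le
    have hq1 : s / m < m ^ l := by
      rw [Int.ediv_lt_iff_lt_mul hm0]
      rwa [pow_succ] at h1
    obtain ⟨N₁, N₂, e, r1, r2⟩ := rep_pair hm l (s / m) hq0 hq1
    have hd0 : 0 ≤ s % m := Int.emod_nonneg _ hm0.ne'
    have hd1 : s % m < m := Int.emod_lt_of_pos _ hm0
    have hs : s = s % m + m * (s / m) := (Int.emod_add_mul_ediv s m).symm
    refine ⟨s % m + N₁, (m - 1 - s % m) + N₂, by push_cast; linarith, ?_, ?_⟩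
    · exact ⟨s % m, s / m, N₁, hs, by rw [abs_of_nonneg hd0], r1⟩
    · refine ⟨m - 1 - s % m, m ^ l - 1 - s / m, N₂, ?_, by rw [abs_of_nonneg (by omega)], r2⟩
      rw [pow_succ]
      linarith

/-- Every `0 ≤ s < m ^ l` costs at most `(m-1) l / 2 + 1`. -/
theorem rep_small (hm : 2 ≤ m) (l : ℕ) (s : ℤ) (h0 : 0 ≤ s) (h1 : s < m ^ l) :
    ∃ N : ℤ, 2 * N ≤ (m - 1) * l + 2 ∧ Rep m l s N := by
  obtain ⟨N₁, N₂, e, r1, r2⟩ := rep_pair hm l s h0 h1
  by_cases h : N₁ ≤ N₂ + 2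
  · exact ⟨N₁, by omega, r1⟩
  · refine ⟨N₂ + 2, by omega, ?_⟩
    have r3 := (r2.neg.add_pow 1 (le_refl l)).add_const (-1)
    have e1 : -(m ^ l - 1 - s) + 1 * m ^ l + -1 = s := by ring
    have e2 : N₂ + |(1 : ℤ)| + |(-1 : ℤ)| = N₂ + 2 := by norm_num; ring
    rwa [e1, e2] at r3

theorem rep_bounded (hm : 2 ≤ m) (l : ℕ) (K Y : ℤ) (hY : |Y| ≤ K * m ^ l) :
    ∃ N : ℤ, 2 * N ≤ (m - 1) * l + 2 + 2 * K ∧ Rep m l Y N := by
  have hp : 0 < m ^ l := by positivity
  obtain ⟨N, hN, r⟩ := rep_small hm l (Y % m ^ l) (Int.emod_nonneg _ hp.ne')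
    (Int.emod_lt_of_pos _ hp)
  have hq : |Y / m ^ l| ≤ K := by
    rw [abs_le] at hY ⊢
    constructor
    · rw [Int.le_ediv_iff_mul_le hp]
      linarith [hY.1]
    · exact Int.ediv_le_of_le_mul hp hY.2
  refine ⟨N + |Y / m ^ l|, by omega, ?_⟩
  have r2 := r.add_pow (Y / m ^ l) (le_refl l)
  have e : Y % m ^ l + Y / m ^ l * m ^ l = Y := Int.emod_add_ediv_mul Y (m ^ l)
  rwa [e] at r2

/-- Multiplying by a power of `m` does not lower the cost. -/
theorem Rep.unshift (hm : 1 ≤ m) {B : ℕ} {y N : ℤ} (h : Rep m (B + 1) (m * y) N) :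
    Rep m B y N := by
  obtain ⟨d, z, M, h1, h2, h3⟩ := h
  have hd : d = m * (y - z) := by linarith
  have h4 := h3.add_const (y - z)
  have e : z + (y - z) = y := by ring
  rw [e] at h4
  refine h4.mono_cost ?_
  have : |y - z| ≤ |d| := by
    rw [hd, abs_mul, abs_of_nonneg (by omega : (0 : ℤ) ≤ m)]
    nlinarith [abs_nonneg (y - z)]
  omega

theorem Rep.unshift_pow (hm : 1 ≤ m) : ∀ (j : ℕ) {B : ℕ} {y N : ℤ},
    Rep m (B + j) (m ^ j * y) N → Rep m B y N
  | 0, _, _, _, h => by simpa using h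
  | j + 1, B, y, N, h => by
    have e : m ^ (j + 1) * y = m * (m ^ j * y) := by ring
    rw [e, ← add_assoc] at h
    exact Rep.unshift_pow hm j (h.unshift hm)

/-- The expensive numbers. -/
def hard (m : ℤ) : ℕ → ℤ
  | 0 => m + 3
  | j + 1 => m / 2 + m * ((m - 1) / 2 + m * hard m j)

theorem hard_ge (hm : 2 ≤ m) : ∀ j : ℕ, (m + 3) * (j + 1) ≤ hard m j
  | 0 => by simp [hard]
  | j + 1 => by
    have ih := hard_ge hm j
    have h1 : 0 ≤ m / 2 := by omega
    have h2 : 0 ≤ (m - 1) / 2 := by omega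
    have h3 : (0 : ℤ) ≤ j := by positivity
    have h4 : m + 3 ≤ hard m j := by nlinarith
    have h5 : 2 * hard m j ≤ m * hard m j := by nlinarith
    have h6 : (m - 1) / 2 + m * hard m j ≤ m * ((m - 1) / 2 + m * hard m j) := by nlinarith
    simp only [hard]
    push_cast
    nlinarith

theorem hard_lt (hm : 2 ≤ m) : ∀ j : ℕ, hard m j + 1 ≤ (m + 4) * m ^ (2 * j)
  | 0 => by
    simp only [hard, mul_zero, pow_zero, mul_one]
    omega
  | j + 1 => by
    have ih := hard_lt hm j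
    have h1 : m / 2 + 1 ≤ m := by omega
    have h2 : (m - 1) / 2 + 1 ≤ m := by omega
    have e : (m + 4) * m ^ (2 * (j + 1)) = m * (m * ((m + 4) * m ^ (2 * j))) := by ring
    rw [e]
    simp only [hard]
    have h3 : (m - 1) / 2 + m * hard m j + 1 ≤ m * ((m + 4) * m ^ (2 * j)) := by nlinarith
    nlinarith

/-- One peeling step: the lowest digit is congruent to `h`. -/
theorem peel_first (hm : 2 ≤ m) {B : ℕ} {h u N : ℤ} (h0 : 0 ≤ h) (h1 : h ≤ m)
    (r : Rep m (B + 1) (h + m * u) N) :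
    Rep m B u (N - h) ∨ Rep m B (u + 1) (N - (m - h)) := by
  obtain ⟨d, z, M, e, h2, h3⟩ := r
  have hd : d = h + m * (u - z) := by linarith
  by_cases hz : z ≤ u
  · left
    have h4 := h3.add_const (u - z)
    have e' : z + (u - z) = u := by ring
    rw [e'] at h4
    refine h4.mono_cost ?_
    have h5 : u - z ≤ m * (u - z) := by nlinarith
    rw [abs_of_nonneg (by omega : 0 ≤ u - z)]
    rw [abs_of_nonneg (by omega : 0 ≤ d)] at h2
    omega
  · right
    have h4 := h3.add_const (u + 1 - z)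
    have e' : z + (u + 1 - z) = u + 1 := by ring
    rw [e'] at h4
    refine h4.mono_cost ?_
    have h5 : m + (z - u - 1) ≤ m * (z - u) := by nlinarith
    have h6 : m * (u - z) = - (m * (z - u)) := by ring
    rw [abs_of_nonpos (by omega : u + 1 - z ≤ 0)]
    rw [abs_of_nonpos (by omega : d ≤ 0)] at h2
    omega

theorem hard_cost (hm : 2 ≤ m) : ∀ (j B : ℕ) (N : ℤ), Rep m B (hard m j) N →
    (m + 3) * j ≤ N + 2 * B
  | 0, B, N, r => by
    have := r.nonneg
    simp only [Nat.cast_zero, mul_zero]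
    positivity
  | j + 1, 0, N, r => by
    have h1 := hard_ge hm (j + 1)
    have h2 : |hard m (j + 1)| ≤ N := r
    have h3 := le_abs_self (hard m (j + 1))
    push_cast at h1 ⊢
    nlinarith
  | j + 1, 1, N, r => by
    have h1 := hard_ge hm j
    have h3 : (0 : ℤ) ≤ j := by positivity
    have h4 : m + 3 ≤ hard m j := by nlinarith
    have h5 : hard m j ≤ m * hard m j := by nlinarith
    have h6 : 0 ≤ (m - 1) / 2 := by omega
    have h7 : 0 ≤ m / 2 := by omega
    have h8 : m / 2 ≤ m := by omega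
    push_cast
    rcases peel_first hm (B := 0) h7 (by omega) r with r' | r'
    · have h2 : |(m - 1) / 2 + m * hard m j| ≤ N - m / 2 := r'
      have := le_abs_self ((m - 1) / 2 + m * hard m j)
      linarith
    · have h2 : |(m - 1) / 2 + m * hard m j + 1| ≤ N - (m - m / 2) := r'
      have := le_abs_self ((m - 1) / 2 + m * hard m j + 1)
      linarith
  | j + 1, B + 2, N, r => by
    have key : ∀ M : ℤ, Rep m B (hard m j) M → (m + 3) * j ≤ M + 2 * B := hard_cost hm j B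
    have key' : ∀ M : ℤ, Rep m B (hard m j + 1) M → (m + 3) * j ≤ M + 1 + 2 * B := by
      intro M hM
      have h4 := hM.add_const (-1)
      have e : hard m j + 1 + -1 = hard m j := by ring
      rw [e] at h4
      simpa using key _ h4
    have e0 : (m + 3) * ((j + 1 : ℕ) : ℤ) = (m + 3) * j + m + 3 := by push_cast; ring
    have e1 : ((B + 2 : ℕ) : ℤ) = B + 2 := by push_cast; ring
    rw [e0, e1]
    rcases peel_first hm (B := B + 1) (by omega) (by omega) r with r' | r'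
    · rcases peel_first hm (B := B) (by omega) (by omega) r' with r'' | r''
      · have := key _ r''
        omega
      · have := key' _ r''
        omega
    · have e : (m - 1) / 2 + m * hard m j + 1 = ((m - 1) / 2 + 1) + m * hard m j := by ring
      rw [e] at r'
      rcases peel_first hm (B := B) (by omega) (by omega) r' with r'' | r''
      · have := key _ r''
        omega
      · have := key' _ r''
        omega

end Pool.Agent.P.MP_af8618_al
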