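import Mathlib
import Pool.Agent.P.MP_af8618_al.Defs
import Pool.Agent.P.MP_af8618_al.Digits

namespace Pool.Agent.P.MP_af8618_al

/-- The affine model `ℚ ⋊ ℤ`. -/
@[ext] structure Aff (m : ℕ) where
  r : ℚ
  k : ℤ

variable {m : ℕ}

instance : Mul (Aff m) := ⟨fun x y => ⟨x.r + (m : ℚ) ^ x.k * y.r, x.k + y.k⟩⟩
instance : One (Aff m) := ⟨⟨0, 0⟩⟩
instance : Inv (Aff m) := ⟨fun x => ⟨-((m : ℚ) ^ (-x.k) * x.r), -x.k⟩⟩

@[simp] theorem Aff.mul_r (x y : Aff m) : (x * y).r = x.r + (m : ℚ) ^ x.k * y.r := rfl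
@[simp] theorem Aff.mul_k (x y : Aff m) : (x * y).k = x.k + y.k := rfl
@[simp] theorem Aff.one_r : (1 : Aff m).r = 0 := rfl
@[simp] theorem Aff.one_k : (1 : Aff m).k = 0 := rfl
@[simp] theorem Aff.inv_r (x : Aff m) : (x⁻¹).r = -((m : ℚ) ^ (-x.k) * x.r) := rfl
@[simp] theorem Aff.inv_k (x : Aff m) : (x⁻¹).k = -x.k := rfl

instance [NeZero m] : Group (Aff m) :=
  Group.ofLeftAxioms
    (fun x y z => by
      have h : (m : ℚ) ≠ 0 := Nat.cast_ne_zero.mpr (NeZero.ne m)
      ext
      · simp only [Aff.mul_r, Aff.mul_k, zpow_add₀ h]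
        ring
      · simp only [Aff.mul_k]
        ring)
    (fun x => by ext <;> simp)
    (fun x => by ext <;> simp)

variable [NeZero m]

def affA (m : ℕ) : Aff m := ⟨1, 0⟩
def affT (m : ℕ) : Aff m := ⟨0, 1⟩

theorem affA_pow (j : ℕ) : affA m ^ j = ⟨j, 0⟩ := by
  induction j with
  | zero => ext <;> simp
  | succ j ih =>
    rw [pow_succ, ih]
    ext <;> simp [affA]

/-- The homomorphism to the affine model. -/
def phi (m : ℕ) [NeZero m] : BS m →* Aff m :=
  PresentedGroup.toGroup (f := fun b : Bool => if b then affT m else affA m) (by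
    intro r hr
    rw [Set.mem_singleton_iff] at hr
    subst hr
    simp only [relator, map_mul, map_inv, map_pow, FreeGroup.lift_apply_of]
    rw [mul_inv_eq_one]
    simp only [Bool.false_eq_true, if_false, if_true]
    rw [affA_pow]
    ext <;> simp [affA, affT])

theorem phi_A : phi m (genA m) = affA m := by
  simp [phi, genA, PresentedGroup.toGroup.of]

theorem phi_T : phi m (genT m) = affT m := by
  simp [phi, genT, PresentedGroup.toGroup.of]

/-- The first coordinate. -/
def cr (g : BS m) : ℚ := (phi m g).r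
/-- The height. -/
def ck (g : BS m) : ℤ := (phi m g).k

theorem cr_one : cr (1 : BS m) = 0 := by simp [cr]
theorem ck_one : ck (1 : BS m) = 0 := by simp [ck]

theorem affA_zpow (d : ℤ) : affA m ^ d = ⟨d, 0⟩ := by
  cases d with
  | ofNat j => simp [affA_pow]
  | negSucc j =>
    rw [zpow_negSucc, affA_pow]
    ext
    · simp [Int.negSucc_eq]
    · simp

theorem cr_mul_A (g : BS m) (d : ℤ) : cr (g * genA m ^ d) = cr g + (m : ℚ) ^ ck g * d := by
  simp [cr, ck, phi_A, affA_zpow]

theorem ck_mul_A (g : BS m) (d : ℤ) : ck (g * genA m ^ d) = ck g := by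
  simp [ck, phi_A, affA_zpow]

theorem cr_mul_T (g : BS m) : cr (g * genT m) = cr g := by
  simp [cr, phi_T, affT]

theorem ck_mul_T (g : BS m) : ck (g * genT m) = ck g + 1 := by
  simp [ck, phi_T, affT]

theorem cr_mul_Tinv (g : BS m) : cr (g * (genT m)⁻¹) = cr g := by
  simp [cr, phi_T, affT]

theorem ck_mul_Tinv (g : BS m) : ck (g * (genT m)⁻¹) = ck g - 1 := by
  simp [ck, phi_T, affT, sub_eq_add_neg]

omit [NeZero m] in
theorem conj_A : genT m * genA m * (genT m)⁻¹ = genA m ^ m := by
  have h : PresentedGroup.mk ({relator m} : Set (FreeGroup Bool)) (relator m) = 1 :=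
    PresentedGroup.one_of_mem (Set.mem_singleton _)
  have e : ∀ f : FreeGroup Bool →* BS m, f (relator m) =
      f (FreeGroup.of true) * f (FreeGroup.of false) * (f (FreeGroup.of true))⁻¹ *
        (f (FreeGroup.of false) ^ m)⁻¹ := by
    intro f
    simp only [relator, map_mul, map_inv, map_pow]
  rw [e, mul_inv_eq_one] at h
  exact h

omit [NeZero m] in
theorem conj_A_zpow (q : ℤ) : genT m * genA m ^ q * (genT m)⁻¹ = genA m ^ ((m : ℤ) * q) := by
  rw [← conj_zpow, conj_A, zpow_mul, zpow_natCast]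

omit [NeZero m] in
theorem pow_T_mul_A (s : ℕ) (q : ℤ) :
    genT m ^ s * genA m ^ q = genA m ^ ((m : ℤ) ^ s * q) * genT m ^ s := by
  induction s generalizing q with
  | zero => simp
  | succ s ih =>
    have h : genT m * genA m ^ q = genA m ^ ((m : ℤ) * q) * genT m := by
      rw [← conj_A_zpow]
      simp
    rw [pow_succ, mul_assoc, h, ← mul_assoc, ih, mul_assoc, ← pow_succ]
    congr 2
    ring

omit [NeZero m] in
theorem exists_word (g : BS m) :
    ∃ l : List (BS m), (∀ s ∈ l, s ∈ gens m) ∧ l.prod = g := by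
  have hg : g ∈ Subgroup.closure (Set.range (PresentedGroup.of :
      Bool → PresentedGroup ({relator m} : Set (FreeGroup Bool)))) := by
    rw [PresentedGroup.closure_range_of]
    trivial
  induction hg using Subgroup.closure_induction with
  | mem x hx =>
    obtain ⟨b, rfl⟩ := hx
    refine ⟨[PresentedGroup.of b], ?_, by simp⟩
    intro s hs
    rw [List.mem_singleton] at hs
    subst hs
    cases b
    · left; rfl
    · right; right; left; rfl
  | one => exact ⟨[], by simp, rfl⟩
  | mul x y _ _ hx hy =>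
    obtain ⟨l₁, h1, rfl⟩ := hx
    obtain ⟨l₂, h2, rfl⟩ := hy
    refine ⟨l₁ ++ l₂, ?_, by simp⟩
    intro s hs
    rcases List.mem_append.mp hs with h | h
    · exact h1 s h
    · exact h2 s h
  | inv x _ hx =>
    obtain ⟨l, h1, rfl⟩ := hx
    refine ⟨(l.map fun x => x⁻¹).reverse, ?_, (List.prod_inv_reverse l).symm⟩
    intro s hs
    rw [List.mem_reverse, List.mem_map] at hs
    obtain ⟨x, hx, rfl⟩ := hs
    rcases h1 x hx with h | h | h | h
    · rw [h]; right; left; rfl
    · rw [h, inv_inv]; left; rfl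
    · rw [h]; right; right; right; rfl
    · rw [Set.mem_singleton_iff.mp h, inv_inv]; right; right; left; rfl

omit [NeZero m] in
/-- Induction along words, keeping track of the length. -/
theorem word_induction {P : BS m → ℕ → Prop} (h0 : P 1 0)
    (hs : ∀ g n s, s ∈ gens m → P g n → P (g * s) (n + 1)) :
    ∀ l : List (BS m), (∀ s ∈ l, s ∈ gens m) → P l.prod l.length := by
  intro l
  induction l using List.reverseRecOn with
  | nil => intro _; exact h0
  | append_singleton l s ih =>
    intro h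
    rw [List.prod_append, List.prod_singleton, List.length_append, List.length_singleton]
    exact hs _ _ _ (h s (by simp)) (ih fun x hx => h x (by simp [hx]))

omit [NeZero m] in
theorem wordLength_spec (g : BS m) : ∃ l : List (BS m),
    l.length = wordLength m g ∧ (∀ s ∈ l, s ∈ gens m) ∧ l.prod = g := by
  obtain ⟨l, h1, h2⟩ := exists_word g
  exact Nat.sInf_mem (s := {n | ∃ l : List (BS m), l.length = n ∧ (∀ s ∈ l, s ∈ gens m) ∧
    l.prod = g}) ⟨l.length, l, rfl, h1, h2⟩

omit [NeZero m] in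
theorem wordLength_induction {P : BS m → ℕ → Prop} (h0 : P 1 0)
    (hs : ∀ g n s, s ∈ gens m → P g n → P (g * s) (n + 1)) (g : BS m) :
    P g (wordLength m g) := by
  obtain ⟨l, h1, h2, h3⟩ := wordLength_spec g
  rw [← h1, ← h3]
  exact word_induction h0 hs l h2

omit [NeZero m] in
theorem wordLength_one : wordLength m 1 = 0 :=
  Nat.eq_zero_of_le_zero (Nat.sInf_le ⟨[], rfl, by simp, rfl⟩)

omit [NeZero m] in
theorem wordLength_mul {s : BS m} (hs : s ∈ gens m) (g : BS m) :
    wordLength m (g * s) ≤ wordLength m g + 1 := by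
  obtain ⟨l, h1, h2, h3⟩ := wordLength_spec g
  refine Nat.sInf_le ⟨l ++ [s], by simp [h1], ?_, by simp [h3]⟩
  intro x hx
  rcases List.mem_append.mp hx with h | h
  · exact h2 x h
  · rw [List.mem_singleton.mp h]
    exact hs

omit [NeZero m] in
theorem wordLength_mul_pow {s : BS m} (hs : s ∈ gens m) (g : BS m) (j : ℕ) :
    wordLength m (g * s ^ j) ≤ wordLength m g + j := by
  induction j with
  | zero => simp
  | succ j ih =>
    rw [pow_succ, ← mul_assoc]
    have := wordLength_mul hs (g * s ^ j)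
    omega

omit [NeZero m] in
theorem wordLength_mul_A (g : BS m) (d : ℤ) :
    (wordLength m (g * genA m ^ d) : ℤ) ≤ wordLength m g + |d| := by
  cases d with
  | ofNat j =>
    have := wordLength_mul_pow (s := genA m) (Or.inl rfl) g j
    simp only [Int.ofNat_eq_natCast, zpow_natCast, Nat.abs_cast]
    exact_mod_cast this
  | negSucc j =>
    have := wordLength_mul_pow (s := (genA m)⁻¹) (Or.inr (Or.inl rfl)) g (j + 1)
    rw [zpow_negSucc, ← inv_pow, Int.negSucc_eq, abs_neg, abs_of_nonneg (by omega)]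
    exact_mod_cast this

omit [NeZero m] in
theorem normal_form (g : BS m) :
    ∃ p s : ℕ, ∃ q : ℤ, g = (genT m ^ p)⁻¹ * genA m ^ q * genT m ^ s := by
  refine wordLength_induction (P := fun g _ =>
    ∃ p s : ℕ, ∃ q : ℤ, g = (genT m ^ p)⁻¹ * genA m ^ q * genT m ^ s) ⟨0, 0, 0, by simp⟩ ?_ g
  rintro g - x hx ⟨p, s, q, rfl⟩
  have hA : ∀ d : ℤ, (genT m ^ p)⁻¹ * genA m ^ q * genT m ^ s * genA m ^ d =
      (genT m ^ p)⁻¹ * genA m ^ (q + (m : ℤ) ^ s * d) * genT m ^ s := by
    intro d
    rw [mul_assoc, pow_T_mul_A, zpow_add]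
    simp only [mul_assoc]
  rcases hx with h | h | h | h
  · exact ⟨p, s, _, by rw [h, ← hA 1, zpow_one]⟩
  · exact ⟨p, s, _, by rw [h, ← hA (-1), zpow_neg_one]⟩
  · exact ⟨p, s + 1, q, by rw [h, pow_succ]; simp only [mul_assoc]⟩
  · rw [Set.mem_singleton_iff.mp h]
    cases s with
    | zero =>
      refine ⟨p + 1, 0, m * q, ?_⟩
      rw [← conj_A_zpow, pow_succ']
      simp [mul_assoc]
    | succ s => exact ⟨p, s, q, by rw [pow_succ]; simp [mul_assoc]⟩

theorem affT_pow (j : ℕ) : affT m ^ j = ⟨0, j⟩ := by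
  induction j with
  | zero => ext <;> simp
  | succ j ih =>
    rw [pow_succ, ih]
    ext <;> simp [affT]

theorem phi_injective : Function.Injective (phi m) := by
  rw [injective_iff_map_eq_one]
  intro g hg
  obtain ⟨p, s, q, rfl⟩ := normal_form g
  have h : (m : ℚ) ≠ 0 := Nat.cast_ne_zero.mpr (NeZero.ne m)
  simp only [map_mul, map_inv, map_pow, map_zpow, phi_A, phi_T, affA_zpow, affT_pow] at hg
  have h1 := congrArg Aff.r hg
  have h2 := congrArg Aff.k hg
  simp [h] at h1 h2
  have h3 : p = s := by omega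
  rw [h1, h3]
  simp

theorem eq_of_coords {g h : BS m} (h1 : cr g = cr h) (h2 : ck g = ck h) : g = h :=
  phi_injective (Aff.ext h1 h2)

end Pool.Agent.P.MP_af8618_al
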