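import Mathlib
import Pool.Agent.P.MP_af8618_al.Model

namespace Pool.Agent.P.MP_af8618_al

variable {m : ℕ} [NeZero m]

theorem cast_ne : (m : ℚ) ≠ 0 := Nat.cast_ne_zero.mpr (NeZero.ne m)

omit [NeZero m] in
theorem memA : genA m ∈ gens m := Or.inl rfl
omit [NeZero m] in
theorem memA' : (genA m)⁻¹ ∈ gens m := Or.inr (Or.inl rfl)
omit [NeZero m] in
theorem memT : genT m ∈ gens m := Or.inr (Or.inr (Or.inl rfl))
omit [NeZero m] in
theorem memT' : (genT m)⁻¹ ∈ gens m := Or.inr (Or.inr (Or.inr rfl))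

/-- What a word of length `n` for `g` gives. -/
def Inv (g : BS m) (n : ℕ) : Prop :=
  ∃ A B : ℕ, ∃ x N : ℤ, -(A : ℤ) ≤ ck g ∧ ck g ≤ B ∧ cr g * (m : ℚ) ^ A = x ∧
    Rep m (A + B) x N ∧ N + 2 * A + 2 * B - |ck g| ≤ n

theorem inv_step_A {g : BS m} {n : ℕ} (c : ℤ) (hc : |c| = 1) (h : Inv g n) :
    Inv (g * genA m ^ c) (n + 1) := by
  obtain ⟨A, B, x, N, h1, h2, h3, h4, h5⟩ := h
  obtain ⟨i, hi⟩ : ∃ i : ℕ, (i : ℤ) = A + ck g := ⟨(A + ck g).toNat, by omega⟩
  refine ⟨A, B, x + c * (m : ℤ) ^ i, N + |c|, ?_, ?_, ?_, h4.add_pow c (by omega), ?_⟩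
  · rwa [ck_mul_A]
  · rwa [ck_mul_A]
  · rw [cr_mul_A, add_mul, h3]
    have : (m : ℚ) ^ i = (m : ℚ) ^ ck g * (m : ℚ) ^ A := by
      rw [← zpow_natCast, hi, zpow_add₀ cast_ne, zpow_natCast, mul_comm]
    push_cast
    rw [this]
    ring
  · rw [ck_mul_A, hc]
    push_cast
    omega

theorem inv_wordLength (g : BS m) : Inv g (wordLength m g) := by
  refine wordLength_induction (P := Inv) ?_ ?_ g
  · exact ⟨0, 0, 0, 0, by simp [ck_one], by simp [ck_one], by simp [cr_one], by simp [Rep],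
      by simp [ck_one]⟩
  · intro g n s hs h
    rcases hs with hs | hs | hs | hs
    · rw [hs, ← zpow_one (genA m)]
      exact inv_step_A 1 (by simp) h
    · rw [hs, ← zpow_neg_one]
      exact inv_step_A (-1) (by simp) h
    · obtain ⟨A, B, x, N, h1, h2, h3, h4, h5⟩ := h
      rw [hs]
      by_cases hk : ck g < B
      · refine ⟨A, B, x, N, ?_, ?_, by rwa [cr_mul_T], h4, ?_⟩ <;> rw [ck_mul_T]
        · omega
        · omega
        · push_cast
          cases abs_cases (ck g) <;> cases abs_cases (ck g + 1) <;> omega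
      · refine ⟨A, B + 1, x, N, ?_, ?_, by rwa [cr_mul_T], h4.succ, ?_⟩ <;> rw [ck_mul_T]
        · omega
        · push_cast
          omega
        · push_cast
          cases abs_cases (ck g) <;> cases abs_cases (ck g + 1) <;> omega
    · obtain ⟨A, B, x, N, h1, h2, h3, h4, h5⟩ := h
      rw [Set.mem_singleton_iff.mp hs]
      by_cases hk : -(A : ℤ) < ck g
      · refine ⟨A, B, x, N, ?_, ?_, by rwa [cr_mul_Tinv], h4, ?_⟩ <;> rw [ck_mul_Tinv]
        · omega
        · omega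
        · push_cast
          cases abs_cases (ck g) <;> cases abs_cases (ck g - 1) <;> omega
      · refine ⟨A + 1, B, m * x, N, ?_, ?_, ?_, ?_, ?_⟩
        · rw [ck_mul_Tinv]
          push_cast
          omega
        · rw [ck_mul_Tinv]
          omega
        · rw [cr_mul_Tinv, pow_succ, ← mul_assoc, h3]
          push_cast
          ring
        · rw [show A + 1 + B = A + B + 1 by ring]
          exact h4.shift
        · rw [ck_mul_Tinv]
          push_cast
          cases abs_cases (ck g) <;> cases abs_cases (ck g - 1) <;> omega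

/-- Lower bound for the length of the deep element. -/
theorem lower_bound (hm : 2 ≤ m) (n : ℕ) (g : BS m) (hk : ck g = 0)
    (hr : cr g * (m : ℚ) ^ (n + 1) = hard m (n + 1)) :
    ((m : ℤ) + 3) * (n + 1) ≤ wordLength m g := by
  obtain ⟨A, B, x, N, -, -, h3, h4, h5⟩ := inv_wordLength g
  have hm' : (2 : ℤ) ≤ m := by exact_mod_cast hm
  rw [hk, abs_zero] at h5
  by_cases hA : A ≤ n
  · exfalso
    obtain ⟨j, rfl⟩ := Nat.exists_eq_add_of_le hA
    have e : (hard m (A + j + 1) : ℚ) = ((m * (x * m ^ j) : ℤ) : ℚ) := by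
      rw [← hr]
      push_cast
      rw [← h3]
      ring
    have e' : hard m (A + j + 1) = m * (x * m ^ j) := by exact_mod_cast e
    simp only [hard] at e'
    have hd : (m : ℤ) ∣ (m : ℤ) / 2 :=
      ⟨x * m ^ j - (((m : ℤ) - 1) / 2 + m * hard m (A + j)), by linarith⟩
    have := Int.le_of_dvd (by omega) hd
    omega
  · obtain ⟨j, rfl⟩ : ∃ j, A = n + 1 + j := ⟨A - (n + 1), by omega⟩
    have e : (x : ℚ) = (((m : ℤ) ^ j * hard m (n + 1) : ℤ) : ℚ) := by
      push_cast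
      rw [← hr, ← h3]
      ring
    have e' : x = (m : ℤ) ^ j * hard m (n + 1) := by exact_mod_cast e
    rw [e', show n + 1 + j + B = (n + 1 + B) + j by ring] at h4
    have h6 := hard_cost hm' _ _ _ (h4.unshift_pow (by omega) j)
    push_cast at h5 h6
    omega

theorem go_up : ∀ (B : ℕ) (g : BS m) (x N : ℤ), Rep m B x N →
    ∃ g' : BS m, ck g' = ck g + B ∧ cr g' = cr g + (m : ℚ) ^ ck g * x ∧
      (wordLength m g' : ℤ) ≤ wordLength m g + N + B
  | 0, g, x, N, h => by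
    have h' : |x| ≤ N := h
    have := wordLength_mul_A g x
    exact ⟨g * genA m ^ x, by simp [ck_mul_A], cr_mul_A g x, by push_cast; omega⟩
  | B + 1, g, x, N, ⟨d, y, M, h1, h2, h3⟩ => by
    obtain ⟨g', e1, e2, e3⟩ := go_up B (g * genA m ^ d * genT m) y M h3
    have w1 := wordLength_mul_A g d
    have w2 := wordLength_mul memT (g * genA m ^ d)
    refine ⟨g', ?_, ?_, ?_⟩
    · rw [e1, ck_mul_T, ck_mul_A]
      push_cast
      ring
    · rw [e2, ck_mul_T, ck_mul_A, cr_mul_T, cr_mul_A, h1, zpow_add₀ cast_ne]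
      push_cast
      simp only [zpow_one]
      ring
    · push_cast
      omega

theorem go_down : ∀ (B : ℕ) (g : BS m) (x N : ℤ), Rep m B x N →
    ∃ g' : BS m, ck g' = ck g - B ∧ cr g' = cr g + (m : ℚ) ^ (ck g - B) * x ∧
      (wordLength m g' : ℤ) ≤ wordLength m g + N + B
  | 0, g, x, N, h => by
    have h' : |x| ≤ N := h
    have := wordLength_mul_A g x
    exact ⟨g * genA m ^ x, by simp [ck_mul_A], by simp [cr_mul_A], by push_cast; omega⟩
  | B + 1, g, x, N, ⟨d, y, M, h1, h2, h3⟩ => by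
    obtain ⟨g', e1, e2, e3⟩ := go_down B g y M h3
    have w1 := wordLength_mul memT' g'
    have w2 := wordLength_mul_A (g' * (genT m)⁻¹) d
    refine ⟨g' * (genT m)⁻¹ * genA m ^ d, ?_, ?_, ?_⟩
    · rw [ck_mul_A, ck_mul_Tinv, e1]
      push_cast
      ring
    · rw [cr_mul_A, ck_mul_Tinv, cr_mul_Tinv, e1, e2, h1]
      have e : ck g - (B : ℤ) = (ck g - ((B + 1 : ℕ) : ℤ)) + 1 := by push_cast; ring
      have e' : ck g - (B : ℤ) - 1 = ck g - ((B + 1 : ℕ) : ℤ) := by push_cast; ring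
      rw [e', e, zpow_add₀ cast_ne]
      push_cast
      simp only [zpow_one]
      ring
    · push_cast
      omega

omit [NeZero m] in
theorem rep_zero (B : ℕ) : Rep (m : ℤ) B 0 0 := by
  simpa using rep_abs (m := (m : ℤ)) B 0

/-- An element with prescribed coordinates and short length. -/
theorem exists_short (n : ℕ) (k Y N : ℤ) (hk : |k| ≤ n) (h : Rep m (2 * n) Y N) :
    ∃ g : BS m, ck g = k ∧ cr g * (m : ℚ) ^ n = Y ∧
      (wordLength m g : ℤ) ≤ N + 4 * n - |k| := by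
  have hinv : (m : ℚ) ^ (-(n : ℤ)) * (m : ℚ) ^ n = 1 := by
    rw [zpow_neg, zpow_natCast, inv_mul_cancel₀ (pow_ne_zero _ cast_ne)]
  rcases le_total 0 k with hk0 | hk0
  · rw [abs_of_nonneg hk0] at hk ⊢
    obtain ⟨j, hj⟩ : ∃ j : ℕ, (j : ℤ) = n - k := ⟨(n - k).toNat, by omega⟩
    obtain ⟨g₁, a1, a2, a3⟩ := go_down n (1 : BS m) 0 0 (rep_zero n)
    obtain ⟨g₂, b1, b2, b3⟩ := go_up (2 * n) g₁ Y N h
    obtain ⟨g₃, c1, c2, c3⟩ := go_down j g₂ 0 0 (rep_zero j)
    rw [ck_one] at a1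
    rw [cr_one] at a2
    rw [wordLength_one] at a3
    refine ⟨g₃, ?_, ?_, ?_⟩
    · push_cast at b1
      omega
    · rw [c2, b2, a2, a1]
      simp only [Int.cast_zero, mul_zero, add_zero, zero_add, zero_sub]
      rw [mul_right_comm, hinv, one_mul]
    · push_cast at a3 b3
      omega
  · rw [abs_of_nonpos hk0] at hk ⊢
    obtain ⟨j, hj⟩ : ∃ j : ℕ, (j : ℤ) = n + k := ⟨(n + k).toNat, by omega⟩
    obtain ⟨g₁, a1, a2, a3⟩ := go_up n (1 : BS m) 0 0 (rep_zero n)
    obtain ⟨g₂, b1, b2, b3⟩ := go_down (2 * n) g₁ Y N h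
    obtain ⟨g₃, c1, c2, c3⟩ := go_up j g₂ 0 0 (rep_zero j)
    rw [ck_one] at a1
    rw [cr_one] at a2
    rw [wordLength_one] at a3
    refine ⟨g₃, ?_, ?_, ?_⟩
    · push_cast at b1
      omega
    · have e : ck g₁ - ((2 * n : ℕ) : ℤ) = -(n : ℤ) := by push_cast; omega
      rw [c2, b2, a2, e]
      simp only [Int.cast_zero, mul_zero, add_zero, zero_add]
      rw [mul_right_comm, hinv, one_mul]
    · push_cast at a3 b3
      omega

theorem upper_bound (n : ℕ) (g : BS m) (Y N : ℤ) (hk : |ck g| ≤ n)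
    (hr : cr g * (m : ℚ) ^ n = Y) (h : Rep m (2 * n) Y N) :
    (wordLength m g : ℤ) ≤ N + 4 * n - |ck g| := by
  obtain ⟨g', h1, h2, h3⟩ := exists_short (m := m) n (ck g) Y N hk h
  have : g' = g := by
    refine eq_of_coords ?_ h1
    exact mul_right_cancel₀ (pow_ne_zero n cast_ne) (h2.trans hr.symm)
  rwa [this] at h3

/-- The finite region. -/
def region (m : ℕ) [NeZero m] (n : ℕ) : Set (BS m) :=
  {g | |ck g| ≤ n ∧ ∃ Y : ℤ, cr g * (m : ℚ) ^ n = Y ∧ |Y| ≤ ((m : ℤ) + 4) * (m : ℤ) ^ (2 * n)}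

theorem region_finite (n : ℕ) : (region m n).Finite := by
  have hinj : Function.Injective fun g : BS m => (cr g * (m : ℚ) ^ n, ck g) := by
    intro g h e
    simp only [Prod.mk.injEq] at e
    exact eq_of_coords (mul_right_cancel₀ (pow_ne_zero n cast_ne) e.1) e.2
  set K : ℤ := ((m : ℤ) + 4) * (m : ℤ) ^ (2 * n)
  have hfin : (((fun y : ℤ => (y : ℚ)) '' Set.Icc (-K) K) ×ˢ Set.Icc (-(n : ℤ)) n).Finite :=
    ((Set.finite_Icc _ _).image _).prod (Set.finite_Icc _ _)
  refine (hfin.preimage hinj.injOn).subset ?_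
  rintro g ⟨h1, Y, h2, h3⟩
  exact ⟨⟨Y, abs_le.mp h3, h2.symm⟩, abs_le.mp h1⟩

theorem boundary_A (hm : 2 ≤ m) (n : ℕ) (g : BS m) (c : ℤ) (hc : c = 1 ∨ c = -1)
    (hg : g ∈ region m n) (hg' : g * genA m ^ c ∉ region m n) :
    2 * (wordLength m g : ℤ) + n ≤ 2 * (((m : ℤ) + 3) * n) + 2 * m + 10 := by
  have hm' : (2 : ℤ) ≤ m := by exact_mod_cast hm
  obtain ⟨h1, Y, h2, h3⟩ := hg
  obtain ⟨i, hi⟩ : ∃ i : ℕ, (i : ℤ) = n + ck g := ⟨(n + ck g).toNat, by
    have := abs_le.mp h1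
    omega⟩
  have hi2 : i ≤ 2 * n := by
    have := abs_le.mp h1
    omega
  have hY' : cr (g * genA m ^ c) * (m : ℚ) ^ n = ((Y + c * (m : ℤ) ^ i : ℤ) : ℚ) := by
    rw [cr_mul_A, add_mul, h2]
    have : (m : ℚ) ^ i = (m : ℚ) ^ ck g * (m : ℚ) ^ n := by
      rw [← zpow_natCast, hi, zpow_add₀ cast_ne, zpow_natCast, mul_comm]
    push_cast
    rw [this]
    ring
  have hbig : ((m : ℤ) + 4) * (m : ℤ) ^ (2 * n) < |Y + c * (m : ℤ) ^ i| := by
    by_contra hcon
    exact hg' ⟨by rwa [ck_mul_A], _, hY', not_lt.mp hcon⟩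
  have hp : 0 < (m : ℤ) ^ i := by positivity
  have hrep : ∃ N : ℤ, 2 * N ≤ ((m : ℤ) - 1) * i + 2 + 2 * (m + 4) ∧ Rep m (2 * n) Y N := by
    have h3' := abs_le.mp h3
    rcases hc with rfl | rfl
    · have hlt : ((m : ℤ) + 4) * (m : ℤ) ^ (2 * n) - Y < (m : ℤ) ^ i := by
        rcases abs_cases (Y + 1 * (m : ℤ) ^ i) with h | h <;> linarith [h.1, h3'.1]
      obtain ⟨N, hN, r⟩ := rep_small hm' i _ (by linarith [h3'.2]) hlt
      have r2 := (r.mono hi2).neg.add_pow ((m : ℤ) + 4) (le_refl (2 * n))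
      have e : -(((m : ℤ) + 4) * (m : ℤ) ^ (2 * n) - Y) + ((m : ℤ) + 4) * (m : ℤ) ^ (2 * n) = Y := by
        ring
      rw [e, abs_of_nonneg (by omega)] at r2
      exact ⟨_, by omega, r2⟩
    · have hlt : ((m : ℤ) + 4) * (m : ℤ) ^ (2 * n) + Y < (m : ℤ) ^ i := by
        rcases abs_cases (Y + -1 * (m : ℤ) ^ i) with h | h <;> linarith [h.1, h3'.2]
      obtain ⟨N, hN, r⟩ := rep_small hm' i _ (by linarith [h3'.1]) hlt
      have r2 := (r.mono hi2).add_pow (-((m : ℤ) + 4)) (le_refl (2 * n))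
      have e : ((m : ℤ) + 4) * (m : ℤ) ^ (2 * n) + Y + -((m : ℤ) + 4) * (m : ℤ) ^ (2 * n) = Y := by
        ring
      rw [e, abs_neg, abs_of_nonneg (by omega)] at r2
      exact ⟨_, by omega, r2⟩
  obtain ⟨N, hN, r⟩ := hrep
  have hu := upper_bound n g Y N h1 h2 r
  have h4 : (n : ℤ) - ck g ≤ ((m : ℤ) - 1) * (n - ck g) := by
    have := abs_le.mp h1
    nlinarith
  have h5 := le_abs_self (ck g)
  have h6 := abs_nonneg (ck g)
  rw [hi] at hN
  nlinarith

theorem boundary_T (hm : 2 ≤ m) (n : ℕ) (g : BS m) (hg : g ∈ region m n) (hk : |ck g| = n) :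
    2 * (wordLength m g : ℤ) + n ≤ 2 * (((m : ℤ) + 3) * n) + 2 * m + 10 := by
  have hm' : (2 : ℤ) ≤ m := by exact_mod_cast hm
  obtain ⟨h1, Y, h2, h3⟩ := hg
  obtain ⟨N, hN, r⟩ := rep_bounded hm' (2 * n) _ Y h3
  have hu := upper_bound n g Y N h1 h2 r
  rw [hk] at hu
  push_cast at hN
  nlinarith

/-- Every element of the region with a neighbour outside is short. -/
theorem boundary (hm : 2 ≤ m) (n : ℕ) (g s : BS m) (hs : s ∈ gens m)
    (hg : g ∈ region m n) (hg' : g * s ∉ region m n) :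
    2 * (wordLength m g : ℤ) + n ≤ 2 * (((m : ℤ) + 3) * n) + 2 * m + 10 := by
  rcases hs with hs | hs | hs | hs
  · rw [hs, ← zpow_one (genA m)] at hg'
    exact boundary_A hm n g 1 (Or.inl rfl) hg hg'
  · rw [hs, ← zpow_neg_one] at hg'
    exact boundary_A hm n g (-1) (Or.inr rfl) hg hg'
  · refine boundary_T hm n g hg ?_
    by_contra hne
    obtain ⟨h1, Y, h2, h3⟩ := hg
    refine hg' ⟨?_, Y, by rwa [hs, cr_mul_T], h3⟩
    rw [hs, ck_mul_T]
    cases abs_cases (ck g) <;> cases abs_cases (ck g + 1) <;> omega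
  · rw [Set.mem_singleton_iff] at hs
    refine boundary_T hm n g hg ?_
    by_contra hne
    obtain ⟨h1, Y, h2, h3⟩ := hg
    refine hg' ⟨?_, Y, by rwa [hs, cr_mul_Tinv], h3⟩
    rw [hs, ck_mul_Tinv]
    cases abs_cases (ck g) <;> cases abs_cases (ck g - 1) <;> omega

omit [NeZero m] in
theorem inv_mem_gens {s : BS m} (hs : s ∈ gens m) : s⁻¹ ∈ gens m := by
  rcases hs with h | h | h | h
  · rw [h]; right; left; rfl
  · rw [h, inv_inv]; left; rfl
  · rw [h]; right; right; right; rfl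
  · rw [Set.mem_singleton_iff.mp h, inv_inv]; right; right; left; rfl

omit [NeZero m] in
theorem adj_step {u v : BS m} (h : (SimpleGraph.mulCayley (gens m)).Adj u v) :
    ∃ s ∈ gens m, u * s = v := by
  obtain ⟨-, s, hs, h | h⟩ := (SimpleGraph.mulCayley_adj' _ u v).mp h
  · exact ⟨s, hs, h⟩
  · exact ⟨s⁻¹, inv_mem_gens hs, by rw [h, mul_inv_cancel_right]⟩

/-- Far from the boundary of the region the component is finite. -/
theorem not_infinite (hm : 2 ≤ m) (n : ℕ) (g : BS m) (hg : g ∈ region m n) (ρ : ℤ)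
    (hρ : 2 * (((m : ℤ) + 3) * n) + 2 * m + 10 ≤ 2 * ρ + n) :
    ¬ InInfiniteComponent m (ball m ρ)ᶜ g := by
  rintro ⟨hU, hinf⟩
  refine hinf (((region_finite n).preimage Subtype.val_injective.injOn).subset ?_)
  intro v hv
  rw [SimpleGraph.ConnectedComponent.mem_supp_iff, SimpleGraph.ConnectedComponent.eq] at hv
  have hv' := (SimpleGraph.reachable_iff_reflTransGen _ _).mp hv.symm
  clear hv
  induction hv' with
  | refl => exact hg
  | tail _ hadj ih =>
    rename_i b c _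
    obtain ⟨s, hs, e⟩ := adj_step (show (SimpleGraph.mulCayley (gens m)).Adj b.1 c.1 from hadj)
    by_contra hc
    have h1 := boundary hm n b.1 s hs ih (by rw [e]; exact hc)
    have h2 : ¬ ((wordLength m b.1 : ℤ) ≤ ρ) := b.2
    omega

/-- The whole Cayley graph is one infinite component. -/
theorem infinite_top (g : BS m) : InInfiniteComponent m (ball m (-1))ᶜ g := by
  have hall : ∀ h : BS m, h ∈ (ball m (-1))ᶜ := by
    intro h hh
    have : (wordLength m h : ℤ) ≤ -1 := hh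
    omega
  refine ⟨hall g, ?_⟩
  have hk : ∀ j : ℕ, ck (g * genT m ^ j) = ck g + j := by
    intro j
    induction j with
    | zero => simp
    | succ j ih =>
      rw [pow_succ, ← mul_assoc, ck_mul_T, ih]
      push_cast
      ring
  refine Set.infinite_of_injective_forall_mem
    (f := fun j : ℕ => (⟨g * genT m ^ j, hall _⟩ : ↥(ball m (-1))ᶜ)) ?_ ?_
  · intro i j e
    have e1 := congrArg (fun v : ↥(ball m (-1))ᶜ => ck v.1) e
    simp only [hk] at e1
    omega
  · intro j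
    rw [SimpleGraph.ConnectedComponent.mem_supp_iff, SimpleGraph.ConnectedComponent.eq]
    induction j with
    | zero => simp
    | succ j ih =>
      refine SimpleGraph.Reachable.trans (SimpleGraph.Adj.reachable ?_) ih
      show (SimpleGraph.mulCayley (gens m)).Adj (g * genT m ^ (j + 1)) (g * genT m ^ j)
      refine (SimpleGraph.mulCayley_adj' _ _ _).mpr ⟨?_, genT m, memT, Or.inr ?_⟩
      · intro e
        have e1 := congrArg ck e
        rw [hk, hk] at e1
        push_cast at e1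
        omega
      · rw [pow_succ, mul_assoc]

theorem unbounded (hm : 2 ≤ m) (D : ℕ) :
    ∃ g : BS m, IsDeadEnd m g ∧ D < retreatDepth m g := by
  have hm' : (2 : ℤ) ≤ m := by exact_mod_cast hm
  obtain ⟨n, hn⟩ : ∃ n : ℕ, n = 2 * D + 2 * m + 11 := ⟨_, rfl⟩
  have hn' : (n : ℤ) = 2 * D + 2 * m + 11 := by rw [hn]; push_cast; ring
  have h0 := hard_ge hm' (n + 1)
  have h1 := hard_lt hm' (n + 1)
  have hpos : 0 ≤ hard (m : ℤ) (n + 1) := le_trans (by positivity) h0
  obtain ⟨g₀, hk, hr, -⟩ := exists_short (m := m) (n + 1) 0 (hard m (n + 1)) _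
    (by rw [abs_zero]; positivity) (rep_abs _ _)
  have hg₀ : g₀ ∈ region m (n + 1) :=
    ⟨by rw [hk, abs_zero]; positivity, _, hr, by rw [abs_of_nonneg hpos]; omega⟩
  have hlow₀ := lower_bound hm n g₀ hk hr
  obtain ⟨g, hg, hmax⟩ := Set.exists_max_image (region m (n + 1)) (wordLength m)
    (region_finite _) ⟨g₀, hg₀⟩
  have hlow : ((m : ℤ) + 3) * (n + 1) ≤ wordLength m g :=
    hlow₀.trans (by exact_mod_cast hmax g₀ hg₀)
  refine ⟨g, ?_, ?_⟩
  · intro s hs e
    by_cases hin : g * s ∈ region m (n + 1)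
    · have := hmax _ hin
      omega
    · have := boundary hm (n + 1) g s hs hg hin
      push_cast at this
      omega
  by_contra hcon
  have hne : {d : ℕ | InInfiniteComponent m
      (ball m ((wordLength m g : ℤ) - d - 1))ᶜ g}.Nonempty := by
    refine ⟨wordLength m g, ?_⟩
    have e : (wordLength m g : ℤ) - (wordLength m g : ℤ) - 1 = -1 := by ring
    show InInfiniteComponent m (ball m ((wordLength m g : ℤ) - (wordLength m g : ℤ) - 1))ᶜ g
    rw [e]
    exact infinite_top g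
  have hmem := Nat.sInf_mem hne
  refine not_infinite hm (n + 1) g hg _ ?_ hmem
  have hle : retreatDepth m g ≤ D := not_lt.mp hcon
  change _ ≤ 2 * ((wordLength m g : ℤ) - (retreatDepth m g : ℕ) - 1) + _
  push_cast
  omega

end Pool.Agent.P.MP_af8618_al
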